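import Pool.Agent.Q105.SubT.Final

set_option autoImplicit false

/-!
# A graph whose mean subtree order is smaller than its mean connected set size
-/

open SimpleGraph Q105.SubT

namespace Pool.Agent.Results.MP_589357_co.MeanLess

/-- The mean subtree order: the average number of vertices of a subgraph of `G` that is a tree. -/
noncomputable def meanSubtreeOrder {V : Type} (G : SimpleGraph V) : ℚ :=
  (∑ᶠ T ∈ {T : G.Subgraph | T.coe.IsTree}, (T.verts.ncard : ℚ)) /
    ({T : G.Subgraph | T.coe.IsTree}.ncard : ℚ)

/-- The average size of a (nonempty) set of vertices inducing a connected subgraph. -/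
noncomputable def meanConnectedSetSize {V : Type} (G : SimpleGraph V) : ℚ :=
  (∑ᶠ U ∈ {U : Set V | (G.induce U).Connected}, (U.ncard : ℚ)) /
    ({U : Set V | (G.induce U).Connected}.ncard : ℚ)

lemma cyc_connected (g : ℕ) [NeZero g] (hg : 3 ≤ g) : (cyc g).Connected := by
  have := top_connected (g := g) hg
  rw [Subgraph.connected_iff'] at this
  exact (Subgraph.topIso.connected_iff).1 this

/-- There is a finite connected graph `G` with `μ(G) < av(G)`. -/
theorem result : ∃ (V : Type) (_ : Finite V) (G : SimpleGraph V),
    G.Connected ∧ meanSubtreeOrder G < meanConnectedSetSize G := by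
  refine ⟨_, inferInstance, GT 1000 3500 500 100, ?_, ?_⟩
  · apply glueG_connected
    · apply glueG_connected
      · apply glueG_connected
        · exact cyc_connected _ (by norm_num)
        · exact connected_starGraph _
      · exact connected_starGraph _
    · exact cyc_connected _ (by norm_num)
  · unfold meanSubtreeOrder meanConnectedSetSize
    rw [mean_true, mean_false]
    apply triangle_lt 1000 3500 500 100 <;>
      norm_num [al, ta, al', ta', rc, rt, EE, FF]

end Pool.Agent.Results.MP_589357_co.MeanLess
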